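import Pool.Agent.Helper68.QC.St4

/-!
# Project QD, PART M (MP_d112a4_gt), module IF7: holomorphic dependence on parameters
-/

set_option autoImplicit false

namespace Pool.Agent.Helper7.QCM

open Pool.Agent.Helper68.QC
open MeasureTheory Set Filter Topology Complex
open scoped ContDiff ComplexConjugate ENNReal

/-- second order Taylor estimate -/
private theorem if7_taylor (h : ℂ → ℂ) (s : ℂ) (r k : ℝ) (hr : 0 < r)
    (hd : DifferentiableOn ℂ h (Metric.ball s r)) (hb : ∀ t ∈ Metric.ball s r, ‖h t‖ ≤ k) :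
    ‖deriv h s‖ ≤ 2 * k / r ∧ ∀ t ∈ Metric.ball s r,
      ‖h t - h s - (t - s) * deriv h s‖ ≤ 4 * k / r / r * ‖t - s‖ ^ 2 := by
  have hs : s ∈ Metric.ball s r := Metric.mem_ball_self hr
  have h1 : MapsTo h (Metric.ball s r) (Metric.closedBall (h s) (2 * k)) := by
    intro t ht
    rw [Metric.mem_closedBall, dist_eq_norm]
    refine (norm_sub_le _ _).trans ?_
    have := hb t ht
    have := hb s hs
    linarith
  have h2 : ∀ t ∈ Metric.ball s r, ‖dslope h s t‖ ≤ 2 * k / r := fun t ht =>
    norm_dslope_le_div_of_mapsTo_ball hd h1 ht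
  have h3 : DifferentiableOn ℂ (dslope h s) (Metric.ball s r) :=
    (differentiableOn_dslope (Metric.ball_mem_nhds s hr)).2 hd
  have h4 : MapsTo (dslope h s) (Metric.ball s r) (Metric.closedBall (dslope h s s) (4 * k / r)) := by
    intro t ht
    rw [Metric.mem_closedBall, dist_eq_norm]
    refine (norm_sub_le _ _).trans ?_
    have e1 := h2 t ht
    have e2 := h2 s hs
    have e3 : 4 * k / r = 2 * k / r + 2 * k / r := by ring
    linarith
  refine ⟨?_, fun t ht => ?_⟩
  · have := h2 s hs
    rwa [dslope_same] at this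
  · have h5 := dist_le_div_mul_dist_of_mapsTo_ball h3 h4 ht
    rw [dist_eq_norm, dist_eq_norm, dslope_same] at h5
    have h6 : h t - h s - (t - s) * deriv h s = (t - s) * (dslope h s t - deriv h s) := by
      have := sub_smul_dslope h s t
      rw [smul_eq_mul] at this
      rw [← this]
      ring
    rw [h6, norm_mul]
    have h7 := mul_le_mul_of_nonneg_left h5 (norm_nonneg (t - s))
    calc ‖t - s‖ * ‖dslope h s t - deriv h s‖ ≤ ‖t - s‖ * (4 * k / r / r * ‖t - s‖) := h7
      _ = 4 * k / r / r * ‖t - s‖ ^ 2 := by ring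

theorem pIF7 : Pool.Agent.Helper68.QC.StIF7 := by
  intro hHol hLip k hk V μ hV hBel hdiff z s hs
  obtain ⟨r, hr, hrV⟩ := Metric.isOpen_iff.1 hV s hs
  have hk0 : 0 ≤ k := (norm_nonneg (μ s 0)).trans ((hBel s hs).le 0)
  -- the derivative of the family
  set μ' : ℂ → ℂ := fun y => deriv (fun t => μ t y) s with hμ'
  have hT : ∀ y, ‖μ' y‖ ≤ 2 * k / r ∧ ∀ t ∈ Metric.ball s r,
      ‖μ t y - μ s y - (t - s) * μ' y‖ ≤ 4 * k / r / r * ‖t - s‖ ^ 2 := fun y =>
    if7_taylor (fun t => μ t y) s r k hr ((hdiff y).mono hrV) fun t ht => (hBel t (hrV ht)).le y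
  have hder : ∀ y, HasDerivAt (fun t => μ t y) (μ' y) s := fun y =>
    ((hdiff y s hs).differentiableAt (hV.mem_nhds hs)).hasDerivAt
  have hmeas : Measurable μ' := by
    set ts : ℕ → ℂ := fun n => ((r / (n + 2) : ℝ) : ℂ) with hts
    have hts0 : ∀ n, ts n ≠ 0 := by
      intro n
      simp only [hts, ne_eq, Complex.ofReal_eq_zero]
      positivity
    have htsV : ∀ n, s + ts n ∈ V := by
      intro n
      apply hrV
      rw [Metric.mem_ball, dist_eq_norm, add_sub_cancel_left]
      simp only [hts, Complex.norm_real]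
      rw [Real.norm_of_nonneg (by positivity), div_lt_iff₀ (by positivity)]
      have : (0 : ℝ) ≤ n := Nat.cast_nonneg n
      nlinarith
    have htl : Tendsto ts atTop (𝓝 0) := by
      have h1 : Tendsto (fun n : ℕ => r / ((n : ℝ) + 2)) atTop (𝓝 0) := by
        refine Tendsto.div_atTop tendsto_const_nhds ?_
        exact tendsto_atTop_add_const_right _ _ tendsto_natCast_atTop_atTop
      have h2 := (Complex.continuous_ofReal.tendsto 0).comp h1
      rw [Complex.ofReal_zero] at h2
      exact h2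
    have htl' : Tendsto (fun n => s + ts n) atTop (𝓝[≠] s) := by
      rw [tendsto_nhdsWithin_iff]
      refine ⟨?_, Eventually.of_forall fun n => ?_⟩
      · have := htl.const_add s
        rwa [add_zero] at this
      · simp only [mem_compl_iff, mem_singleton_iff, add_eq_left]
        exact hts0 n
    refine measurable_of_tendsto_metrizable (f := fun n y => (μ (s + ts n) y - μ s y) / ts n)
      (fun n => ((hBel _ (htsV n)).meas.sub (hBel s hs).meas).div_const _) ?_
    rw [tendsto_pi_nhds]
    intro y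
    have h1 := (hasDerivAt_iff_tendsto_slope.1 (hder y)).comp htl'
    refine h1.congr fun n => ?_
    simp only [Function.comp_apply, slope_def_field, add_sub_cancel_left]
  -- constants
  set k' : ℝ := (1 + k) / 2 with hk'
  have hk'1 : k' < 1 := by rw [hk']; linarith
  have hkk' : k ≤ k' := by rw [hk']; linarith
  set ρ : ℝ := min r (r * (1 - k) / (4 * (k + 1))) with hρ
  have hρ0 : 0 < ρ := lt_min hr (div_pos (mul_pos hr (by linarith)) (by positivity))
  have hρr : ρ ≤ r := min_le_left _ _
  have hρ2 : ρ * (2 * k / r) ≤ (1 - k) / 2 := by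
    have h1 : ρ ≤ r * (1 - k) / (4 * (k + 1)) := min_le_right _ _
    have h2 : ρ * (2 * k / r) ≤ r * (1 - k) / (4 * (k + 1)) * (2 * k / r) :=
      mul_le_mul_of_nonneg_right h1 (by positivity)
    refine h2.trans ?_
    rw [div_mul_div_comm, div_le_div_iff₀ (by positivity) (by positivity)]
    have h3 : 0 ≤ r * (1 - k) := mul_nonneg hr.le (by linarith)
    nlinarith
  set μ₀ : ℂ → ℂ := fun y => μ s y - s * μ' y with hμ₀
  have hm0 : Measurable μ₀ := (hBel s hs).meas.sub (hmeas.const_mul s)
  have hlin : ∀ t y, μ₀ y + t * μ' y = μ s y + (t - s) * μ' y := by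
    intro t y
    simp only [hμ₀]
    ring
  have hbd : ∀ t ∈ Metric.ball s ρ, ∀ y, ‖μ₀ y + t * μ' y‖ ≤ k' := by
    intro t ht y
    rw [hlin]
    refine (norm_add_le _ _).trans ?_
    rw [norm_mul]
    have h1 := (hBel s hs).le y
    have h2 : ‖t - s‖ ≤ ρ := by
      rw [Metric.mem_ball, dist_eq_norm] at ht
      exact ht.le
    have h3 : ‖t - s‖ * ‖μ' y‖ ≤ ρ * (2 * k / r) :=
      mul_le_mul h2 (hT y).1 (norm_nonneg _) hρ0.le
    rw [hk']
    linarith
  have hg := hHol k' (max (k + ‖s‖ * (2 * k / r)) (2 * k / r)) μ₀ μ' (Metric.ball s ρ) hk'1 hm0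
    hmeas (by
      intro y
      refine le_trans ?_ (le_max_left _ _)
      refine (norm_sub_le _ _).trans (add_le_add ((hBel s hs).le y) ?_)
      rw [norm_mul]
      exact mul_le_mul_of_nonneg_left (hT y).1 (norm_nonneg _)) (by
      intro y
      exact (hT y).1.trans (le_max_right _ _)) Metric.isOpen_ball hbd z
  obtain ⟨C, hC⟩ := hLip k' hk'1 ‖z‖
  set g : ℂ → ℂ := fun t => nq (fun y => μ₀ y + t * μ' y) z with hgdef
  have hgs : g s = nq (μ s) z := by
    have h1 : (fun y => μ₀ y + s * μ' y) = μ s := by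
      funext y
      rw [hlin, sub_self, zero_mul, add_zero]
    simp only [hgdef, h1]
  have hgd : DifferentiableAt ℂ g s := hg.differentiableAt (Metric.ball_mem_nhds s hρ0)
  have hbig : (fun t => nq (μ t) z - g t) =O[𝓝 s] fun t => ‖t - s‖ ^ 2 := by
    refine Asymptotics.IsBigO.of_bound (C * (4 * k / r / r)) ?_
    filter_upwards [Metric.ball_mem_nhds s hρ0] with t ht
    have htr : t ∈ Metric.ball s r := Metric.ball_subset_ball hρr ht
    have h1 : Bel k' (μ t) :=
      ⟨(hBel t (hrV htr)).meas, fun y => ((hBel t (hrV htr)).le y).trans hkk'⟩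
    have h2 : Bel k' (fun y => μ₀ y + t * μ' y) :=
      ⟨hm0.add (hmeas.const_mul t), fun y => hbd t ht y⟩
    have h3 := hC (4 * k / r / r * ‖t - s‖ ^ 2) (by positivity) (μ t)
      (fun y => μ₀ y + t * μ' y) h1 h2 (fun y => by
        have h4 := (hT y).2 t htr
        rw [hlin]
        have h5 : μ t y - (μ s y + (t - s) * μ' y) = μ t y - μ s y - (t - s) * μ' y := by ring
        rw [h5]
        exact h4) z le_rfl
    rw [norm_pow, norm_norm]
    refine h3.trans (le_of_eq ?_)
    ring
  have hzero : HasFDerivAt (fun t => nq (μ t) z - g t) (0 : ℂ →L[ℂ] ℂ) s :=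
    hbig.hasFDerivAt one_lt_two
  have hsum : DifferentiableAt ℂ (fun t => (nq (μ t) z - g t) + g t) s :=
    hzero.differentiableAt.add hgd
  have hfin : (fun t => (nq (μ t) z - g t) + g t) = fun t => nq (μ t) z := by
    funext t
    ring
  rw [hfin] at hsum
  exact hsum.differentiableWithinAt

end Pool.Agent.Helper7.QCM
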